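import Pool.Agent.H25.EE.TargetsB

/-! Row DETF of the board `ee_modules`: determinant bound, finite sums. -/

set_option autoImplicit false

open Finset

namespace Pool.Agent.H33.EE.DETF

open Pool.Agent.H25.EE

private theorem det_bound {ι : Type} [Fintype ι] [DecidableEq ι] (M : ι → ι → ℂ) (c : ι → ℝ)
    (h : ∀ i j, ‖M i j‖ ≤ c i) :
    ‖Matrix.det (Matrix.of M)‖ ≤ ((Fintype.card ι).factorial : ℝ) * ∏ i, c i := by
  rw [Matrix.det_apply']
  refine (norm_sum_le _ _).trans ?_
  have h1 : ∀ σ ∈ (univ : Finset (Equiv.Perm ι)),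
      ‖((Equiv.Perm.sign σ : ℤ) : ℂ) * ∏ i, (Matrix.of M) (σ i) i‖ ≤ ∏ i, c i := by
    intro σ _
    rw [← Equiv.prod_comp σ c]
    have h2 : ‖((Equiv.Perm.sign σ : ℤ) : ℂ)‖ = 1 := by
      rcases Int.units_eq_one_or (Equiv.Perm.sign σ) with h | h <;> rw [h] <;> simp
    rw [norm_mul, h2, one_mul, norm_prod]
    exact Finset.prod_le_prod (fun i _ => norm_nonneg _) (fun i _ => h _ _)
  refine (Finset.sum_le_sum h1).trans (le_of_eq ?_)
  rw [Finset.sum_const, Finset.card_univ, Fintype.card_perm, nsmul_eq_mul]

theorem pf_DETF (hESY : T_ESY) : T_DETF := by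
  intro ι _ _ N A B E a b η U G hA hB ha hb hG hη hE hU
  set f : MultilinearMap ℂ (fun _ : ι => ι → ℂ) ℂ :=
    (Matrix.detRowAlternating : (ι → ℂ) [⋀^ι]→ₗ[ℂ] ℂ).toMultilinearMap with hf
  have hfdet : ∀ M : ι → ι → ℂ, f M = Matrix.det (Matrix.of M) := fun M => rfl
  set S : ι → ι → ℂ := fun i j => ∑ n ∈ range N, A i n * B j n with hS
  have hG0 : ∀ l, 0 ≤ G l := fun l =>
    (Finset.sum_nonneg fun n _ => mul_nonneg (ha n) (hb n)).trans (hG l)
  have hU0 : 0 ≤ U := by
    refine le_trans ?_ (hU 0 (Nat.zero_le _))
    exact mul_nonneg (pow_nonneg hη _) (Finset.prod_nonneg fun l _ => hG0 l)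
  -- one subset
  have hone : ∀ s : Finset ι, ‖f (s.piecewise S E)‖ ≤
      ((Fintype.card ι).factorial : ℝ) ^ 2 * U := by
    intro s
    set Bn : Fin N → ι → ℂ := fun n j => B j n with hBn
    set fs := f.domDomRestrict (fun i => i ∈ s) (fun i => E i.1) with hfs
    have h1 : f (s.piecewise S E) = fs (fun i => ∑ n : Fin N, A i.1 n • Bn n) := by
      rw [hfs, MultilinearMap.domDomRestrict_apply]
      congr 1
      funext i
      by_cases hi : i ∈ s
      · rw [Finset.piecewise_eq_of_mem _ _ _ hi, dif_pos hi]
        funext j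
        rw [hS, Finset.sum_apply]
        simp only [Pi.smul_apply, smul_eq_mul, hBn]
        rw [Finset.sum_range (fun n => A i n * B j n)]
      · rw [Finset.piecewise_eq_of_notMem _ _ _ hi, dif_neg hi]
    rw [h1, MultilinearMap.map_sum]
    refine (norm_sum_le _ _).trans ?_
    -- one term
    set m := Fintype.card {i // i ∈ s} with hm
    have hterm : ∀ r : {i // i ∈ s} → Fin N,
        ‖fs (fun i => A i.1 (r i) • Bn (r i))‖ ≤ if Function.Injective r then
          ((Fintype.card ι).factorial : ℝ) * η ^ (Fintype.card ι - m) *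
            ∏ i, (a (r i) * b (r i)) else 0 := by
      intro r
      rw [MultilinearMap.map_smul_univ, norm_smul, norm_prod]
      have h2 : fs (fun i => Bn (r i)) = Matrix.det (Matrix.of
          (fun i => if h : i ∈ s then Bn (r ⟨i, h⟩) else E i)) := by
        rw [hfs, MultilinearMap.domDomRestrict_apply, hfdet]
      by_cases hr : Function.Injective r
      · rw [if_pos hr, h2]
        have h3 := det_bound (fun i => if h : i ∈ s then Bn (r ⟨i, h⟩) else E i)
          (fun i => if h : i ∈ s then b (r ⟨i, h⟩) else η) (by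
            intro i j
            by_cases hi : i ∈ s
            · simp only [dif_pos hi, hBn]
              exact hB j _
            · simp only [dif_neg hi]
              exact hE i j)
        have h4 : ∏ i, (if h : i ∈ s then b (r ⟨i, h⟩) else η) =
            (∏ i : {i // i ∈ s}, b (r i)) * η ^ (Fintype.card ι - m) := by
          rw [Fintype.prod_dite (fun i (h : i ∈ s) => b (r ⟨i, h⟩)) (fun _ _ => η)]
          congr 1
          · exact Finset.prod_congr (by ext x; simp) fun _ _ => rfl
          · rw [Finset.prod_const, Finset.card_univ, Fintype.card_subtype_compl]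
        rw [h4] at h3
        have h5 : ∏ i : {i // i ∈ s}, ‖A i.1 (r i)‖ ≤ ∏ i : {i // i ∈ s}, a (r i) :=
          Finset.prod_le_prod (fun i _ => norm_nonneg _) (fun i _ => hA _ _)
        refine (mul_le_mul h5 h3 (norm_nonneg _)
          (Finset.prod_nonneg fun i _ => ha _)).trans (le_of_eq ?_)
        rw [Finset.prod_mul_distrib]
        ring
      · rw [if_neg hr, h2]
        have h3 : ∃ x y : {i // i ∈ s}, r x = r y ∧ x ≠ y := by
          unfold Function.Injective at hr
          push Not at hr
          exact hr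
        obtain ⟨x, y, hxy, hne⟩ := h3
        have h4 : Matrix.det (Matrix.of
            (fun i => if h : i ∈ s then Bn (r ⟨i, h⟩) else E i)) = 0 := by
          refine Matrix.det_zero_of_row_eq (i := x.1) (j := y.1)
            (fun h => hne (Subtype.ext h)) ?_
          change (if h : x.1 ∈ s then Bn (r ⟨x.1, h⟩) else E x.1) =
            (if h : y.1 ∈ s then Bn (r ⟨y.1, h⟩) else E y.1)
          rw [dif_pos x.2, dif_pos y.2]
          exact congrArg Bn hxy
        rw [h4, norm_zero, mul_zero]
    refine (Finset.sum_le_sum fun r _ => hterm r).trans ?_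
    rw [← Finset.sum_filter, ← Finset.mul_sum]
    let e : {i // i ∈ s} ≃ Fin m := Fintype.equivFin _
    have h3 : ∑ r ∈ (univ : Finset ({i // i ∈ s} → Fin N)).filter
        (fun r => Function.Injective r), ∏ i, (a (r i) * b (r i)) =
        ∑ r ∈ (univ : Finset (Fin m → Fin N)).filter
        (fun r => Function.Injective r), ∏ i, (a (r i) * b (r i)) := by
      refine Finset.sum_equiv (e.arrowCongr (Equiv.refl (Fin N))) ?_ ?_
      · intro r
        simp only [mem_filter, mem_univ, true_and]
        constructor
        · intro h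
          exact h.comp e.symm.injective
        · intro h
          have h4 := h.comp e.injective
          have h5 : (e.arrowCongr (Equiv.refl (Fin N))) r ∘ e = r := by
            funext i
            simp
          rwa [h5] at h4
      · intro r _
        rw [← Equiv.prod_comp e.symm]
        rfl
    rw [h3]
    have h4 := hESY m N (fun n => a n * b n) G (fun n => mul_nonneg (ha n) (hb n)) hG
    have hmc : m ≤ Fintype.card ι := Fintype.card_subtype_le _
    have h5 := hU (Fintype.card ι - m) (Nat.sub_le _ _)
    rw [Nat.sub_sub_self hmc] at h5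
    calc ((Fintype.card ι).factorial : ℝ) * η ^ (Fintype.card ι - m) *
          ∑ r ∈ (univ : Finset (Fin m → Fin N)).filter
            (fun r => Function.Injective r), ∏ i, (a (r i) * b (r i))
        ≤ ((Fintype.card ι).factorial : ℝ) * η ^ (Fintype.card ι - m) *
          ((m.factorial : ℝ) * ∏ l ∈ range m, G l) := by gcongr
      _ = ((Fintype.card ι).factorial : ℝ) * (m.factorial : ℝ) *
          (η ^ (Fintype.card ι - m) * ∏ l ∈ range m, G l) := by ring
      _ ≤ ((Fintype.card ι).factorial : ℝ) * ((Fintype.card ι).factorial : ℝ) * U := by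
          refine mul_le_mul ?_ h5 (mul_nonneg (pow_nonneg hη _)
            (Finset.prod_nonneg fun l _ => hG0 l)) (by positivity)
          refine mul_le_mul_of_nonneg_left ?_ (by positivity)
          exact_mod_cast Nat.factorial_le hmc
      _ = ((Fintype.card ι).factorial : ℝ) ^ 2 * U := by ring
  have h0 : Matrix.det (Matrix.of fun i j => ∑ n ∈ range N, A i n * B j n + E i j) =
      f (S + E) := rfl
  rw [h0, MultilinearMap.map_add_univ]
  refine (norm_sum_le _ _).trans ((Finset.sum_le_sum fun s _ => hone s).trans (le_of_eq ?_))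
  rw [Finset.sum_const, Finset.card_univ, Fintype.card_finset, nsmul_eq_mul]
  push_cast
  ring

end Pool.Agent.H33.EE.DETF
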