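import Pool.Agent.H25.EE.TargetsA

/-! Row PW of the board `ee_modules`: pointwise inequality. -/

set_option autoImplicit false

namespace Pool.Agent.H33.EE.PW

open Pool.Agent.H25.EE

private theorem logs (j j' j1 : ℝ) (h2 : (20000000 : ℝ) ≤ j) (hL : 40000 ≤ Real.log j)
    (h200 : j ≤ 200 * j1) (hj1 : j1 ≤ j') (hj' : j' ≤ j) :
    (100000 : ℝ) ≤ j1 ∧ 199 / 200 * Real.log j ≤ Real.log j1 ∧ Real.log j1 ≤ Real.log j' ∧
      Real.log j' ≤ Real.log j := by
  have h1 : (100000 : ℝ) ≤ j1 := by linarith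
  have h3 : Real.log j ≤ Real.log 200 + Real.log j1 := by
    rw [← Real.log_mul (by norm_num) (by linarith)]
    exact Real.log_le_log (by linarith) h200
  have h4 : Real.log 200 ≤ 200 := by
    have := Real.log_le_sub_one_of_pos (show (0 : ℝ) < 200 by norm_num)
    linarith
  refine ⟨h1, by linarith, Real.log_le_log (by linarith) hj1, Real.log_le_log (by linarith) hj'⟩

private theorem thr_succ (J' : ℕ) (h : (100000 : ℝ) ≤ J') (hL : 1 ≤ Real.log J') :
    thr (J' + 1) ≤ 1003 / 1000 * VJ J' := by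
  unfold thr VJ
  set j : ℝ := (J' : ℝ) with hj
  push_cast
  rw [← hj]
  have hj0 : 0 < j := by linarith
  set x : ℝ := 1 / j with hx
  have hx0 : 0 < x := by positivity
  have hx1 : x ≤ 1 / 100000 := one_div_le_one_div_of_le (by norm_num) h
  have e1 : j + 1 = j * (1 + x) := by
    rw [hx]
    field_simp
  have e2 : Real.log (j + 1) ≤ Real.log j * (1 + x) := by
    rw [e1, Real.log_mul hj0.ne' (by positivity)]
    have h3 := Real.log_le_sub_one_of_pos (show (0 : ℝ) < 1 + x by positivity)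
    nlinarith
  have e3 : (1 + x) ^ 5 ≤ 10001 / 10000 := by
    calc (1 + x) ^ 5 ≤ (1 + 1 / 100000) ^ 5 := by gcongr
      _ ≤ 10001 / 10000 := by norm_num
  have hlog0 : 0 < Real.log j := by linarith
  calc 713 / 200000 * (j + 1) ^ 4 * Real.log (j + 1)
      ≤ 713 / 200000 * (j + 1) ^ 4 * (Real.log j * (1 + x)) := by gcongr
    _ = 713 / 200000 * (j ^ 4 * Real.log j) * (1 + x) ^ 5 := by
        rw [e1]
        ring
    _ ≤ 713 / 200000 * (j ^ 4 * Real.log j) * (10001 / 10000) := by gcongr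
    _ ≤ 1003 / 1000 * (4 / 1125 * j ^ 4 * Real.log j) := by
        have : 0 < j ^ 4 * Real.log j := by positivity
        linarith

private theorem phi_eq (J' : ℕ) (ε a : ℝ) (hL : 0 < Real.log J') :
    phi ε J' (a * VJ J') =
      (J' : ℝ) ^ 8 * Real.log J' * (8 / 1265625 * (a - a ^ 2 / 2) - ε) := by
  unfold phi VJ
  field_simp
  ring

theorem pf_PW (hGIN : T_GIN) : T_PW := by
  obtain ⟨g1, g2, g3, g4, g5⟩ := hGIN
  refine ⟨max 20000000 (⌈Real.exp 40000⌉₊), ?_⟩
  intro J hJ J1 J' h200 h1 h2 v hv hcase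
  have hJa : 20000000 ≤ J := (le_max_left _ _).trans hJ
  have hJb : ⌈Real.exp 40000⌉₊ ≤ J := (le_max_right _ _).trans hJ
  have hJa' : (20000000 : ℝ) ≤ J := by exact_mod_cast hJa
  have hJb' : Real.exp 40000 ≤ (J : ℝ) :=
    (Nat.le_ceil _).trans (by exact_mod_cast hJb)
  set j : ℝ := (J : ℝ) with hj
  set j' : ℝ := (J' : ℝ) with hj'
  set j1 : ℝ := (J1 : ℝ) with hj1
  have hL : 40000 ≤ Real.log j := by
    rw [Real.le_log_iff_exp_le (by linarith)]
    exact hJb'
  obtain ⟨k1, k2, k3, k4⟩ := logs j j' j1 hJa' hL (by rw [hj, hj1]; exact_mod_cast h200)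
    (by rw [hj', hj1]; exact_mod_cast h1) (by rw [hj, hj']; exact_mod_cast h2)
  have hj1j' : j1 ≤ j' := by rw [hj', hj1]; exact_mod_cast h1
  have hj'j : j' ≤ j := by rw [hj, hj']; exact_mod_cast h2
  have hj200 : j ≤ 200 * j1 := by rw [hj, hj1]; exact_mod_cast h200
  set L : ℝ := Real.log j with hLdef
  set L' : ℝ := Real.log j' with hL'def
  set L1 : ℝ := Real.log j1 with hL1def
  have hj0 : 0 < j := by linarith
  have hj'0 : 0 < j' := by linarith
  have hj10 : 0 < j1 := by linarith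
  have hL0 : 0 < L := by linarith
  have hL'0 : 0 < L' := by linarith
  have hL10 : 0 < L1 := by linarith
  have hV : VJ J = 4 / 1125 * j ^ 4 * L := rfl
  have hV' : VJ J' = 4 / 1125 * j' ^ 4 * L' := rfl
  have hthr : thr J1 = 713 / 200000 * j1 ^ 4 * L1 := rfl
  have hV0 : 0 < VJ J := by rw [hV]; positivity
  have hV'0 : 0 < VJ J' := by rw [hV']; positivity
  set w : ℝ := min v (VJ J') with hw
  set a : ℝ := w / VJ J' with ha
  have hwa : w = a * VJ J' := by rw [ha, div_mul_cancel₀ _ hV'0.ne']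
  have ha1 : a ≤ 1 := by
    rw [ha, div_le_one hV'0]
    exact min_le_right _ _
  have hV'thr : 1 / 10 ^ 10 * VJ J' ≤ thr J1 := by
    rw [hV', hthr]
    have e1 : j' ^ 4 ≤ (200 * j1) ^ 4 := by
      gcongr
      linarith
    have e2 : L' ≤ 200 / 199 * L1 := by linarith
    calc 1 / 10 ^ 10 * (4 / 1125 * j' ^ 4 * L')
        ≤ 1 / 10 ^ 10 * (4 / 1125 * (200 * j1) ^ 4 * (200 / 199 * L1)) := by gcongr
      _ = (1 / 10 ^ 10 * (4 / 1125 * 200 ^ 4 * (200 / 199))) * (j1 ^ 4 * L1) := by ring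
      _ ≤ 713 / 200000 * (j1 ^ 4 * L1) := by
          refine mul_le_mul_of_nonneg_right (by norm_num) (by positivity)
      _ = 713 / 200000 * j1 ^ 4 * L1 := by ring
  have ha0 : 1 / 10 ^ 10 ≤ a := by
    rw [ha, le_div_iff₀ hV'0, hw, le_min_iff]
    constructor
    · linarith
    · have : (1 : ℝ) / 10 ^ 10 ≤ 1 := by norm_num
      nlinarith
  set A : ℝ := a - a ^ 2 / 2 with hA
  have hA0 : 1 / (2 * 10 ^ 10) ≤ A := by
    have h3 : a / 2 ≤ A := by
      rw [hA]
      nlinarith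
    have h4 : (1 : ℝ) / (2 * 10 ^ 10) = (1 / 10 ^ 10) / 2 := by norm_num
    linarith
  have hApos : 0 < A := lt_of_lt_of_le (by norm_num) hA0
  have hA1 : A ≤ 1 / 2 := by
    rw [hA]
    nlinarith [sq_nonneg (a - 1)]
  set t : ℝ := j' / j with ht
  have ht0 : 0 < t := by positivity
  have ht1 : t ≤ 1 := by
    rw [ht, div_le_one hj0]
    exact hj'j
  -- the main bound
  have hGG : GG (v / VJ J) ≤ 1003 / 1000 * (t ^ 2 * A) := by
    have hcaseA : v ≤ 1003 / 1000 * w → GG (v / VJ J) ≤ 1003 / 1000 * (t ^ 2 * A) := by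
      intro hvw
      have e1 : w / VJ J ≤ a * (t ^ 2) ^ 2 := by
        rw [hwa, hV, hV', ht, div_le_iff₀ (by positivity)]
        have e3 : a * ((j' / j) ^ 2) ^ 2 * (4 / 1125 * j ^ 4 * L) =
            a * (4 / 1125 * j' ^ 4 * L) := by
          field_simp
        rw [e3]
        have : 0 ≤ a := le_trans (by norm_num) ha0
        gcongr
      have e2 : v / VJ J ≤ 1003 / 1000 * (a * (t ^ 2) ^ 2) := by
        calc v / VJ J ≤ (1003 / 1000 * w) / VJ J := by gcongr
          _ = 1003 / 1000 * (w / VJ J) := by ring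
          _ ≤ _ := by gcongr
      have e3 : 0 ≤ a := le_trans (by norm_num) ha0
      refine (g4 _ _ e2).trans ((g5 _ _ (by norm_num) (by positivity)).trans ?_)
      refine mul_le_mul_of_nonneg_left ?_ (by norm_num)
      exact g1 a (t ^ 2) e3 ha1 (by positivity) (by nlinarith)
    rcases le_or_gt v (VJ J') with hvV | hvV
    · apply hcaseA
      rw [hw, min_eq_left hvV]
      have : 0 < v := by
        have : 0 < thr J1 := by rw [hthr]; positivity
        linarith
      linarith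
    · rcases hcase with hc | hc
      · have hww : w = VJ J' := min_eq_right hvV.le
        have ha' : a = 1 := by rw [ha, hww, div_self hV'0.ne']
        have ht' : t = 1 := by
          rw [ht, hj', hj, hc, div_self]
          rw [← hj]
          exact hj0.ne'
        rw [ht', hA, ha']
        refine (g3 _).trans ?_
        norm_num
      · apply hcaseA
        have h3 := thr_succ J' (by rw [← hj']; linarith) (by rw [← hj', ← hL'def]; linarith)
        have hww : w = VJ J' := min_eq_right hvV.le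
        rw [hww]
        linarith
  rw [hwa, phi_eq J' _ a (by rw [← hj', ← hL'def]; exact hL'0), ← hA, ← hj', ← hL'def]
  have hε : (1 : ℝ) / 10 ^ 20 ≤ 1 / 1000 * (8 / 1265625 * A) := by
    have : (1 : ℝ) / 10 ^ 20 ≤ 1 / 1000 * (8 / 1265625 * (1 / (2 * 10 ^ 10))) := by norm_num
    nlinarith
  have e1 : (j / j') ^ 6 * (j' ^ 8 * L' * (8 / 1265625 * A - 1 / 10 ^ 20)) =
      (j ^ 6 * j' ^ 2) * (L' * (8 / 1265625 * A - 1 / 10 ^ 20)) := by
    field_simp
  have e2 : j ^ 8 * t ^ 2 = j ^ 6 * j' ^ 2 := by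
    rw [ht]
    field_simp
  have e3 : L * (1003 / 1000 * (8 / 1265625 * A)) ≤
      101 / 100 * (L' * (8 / 1265625 * A - 1 / 10 ^ 20)) := by
    set x : ℝ := 8 / 1265625 * A with hx
    have hx0 : 0 < x := by positivity
    have h3 : 999 / 1000 * x ≤ x - 1 / 10 ^ 20 := by linarith
    have h4 : 199 / 200 * L ≤ L' := by linarith
    calc L * (1003 / 1000 * x) ≤ 101 / 100 * ((199 / 200 * L) * (999 / 1000 * x)) := by
          have : 0 < L * x := by positivity
          nlinarith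
      _ ≤ 101 / 100 * (L' * (x - 1 / 10 ^ 20)) := by gcongr
  calc 8 / 1265625 * j ^ 8 * L * GG (v / VJ J)
      ≤ 8 / 1265625 * j ^ 8 * L * (1003 / 1000 * (t ^ 2 * A)) := by gcongr
    _ = (j ^ 8 * t ^ 2) * (L * (1003 / 1000 * (8 / 1265625 * A))) := by ring
    _ = (j ^ 6 * j' ^ 2) * (L * (1003 / 1000 * (8 / 1265625 * A))) := by rw [e2]
    _ ≤ (j ^ 6 * j' ^ 2) * (101 / 100 * (L' * (8 / 1265625 * A - 1 / 10 ^ 20))) := by gcongr
    _ = 101 / 100 * ((j ^ 6 * j' ^ 2) * (L' * (8 / 1265625 * A - 1 / 10 ^ 20))) := by ring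
    _ = 101 / 100 * ((j / j') ^ 6 * (j' ^ 8 * L' * (8 / 1265625 * A - 1 / 10 ^ 20))) := by
        rw [e1]
    _ = _ := by ring

end Pool.Agent.H33.EE.PW
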