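import Pool.Agent.H25.EE.TargetsB

/-! Row TAIL of the board `ee_modules`: tail of the exponential series. -/

set_option autoImplicit false

namespace Pool.Agent.H33.EE.TAIL

open Pool.Agent.H25.EE Filter

/-- the polynomial factor is small -/
private theorem evlog : ∃ Y : ℝ, 2 ≤ Y ∧ ∀ y : ℝ, Y ≤ y →
    2 * Real.sqrt (1000 * y) * Real.log y ≤ y - 1 := by
  have h1 := (isLittleO_log_rpow_atTop (r := 1 / 2) (by norm_num)).bound
    (c := 1 / (4 * Real.sqrt 1000)) (by positivity)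
  obtain ⟨Y, hY⟩ := eventually_atTop.1 h1
  refine ⟨max Y 2, le_max_right _ _, fun y hy => ?_⟩
  have hy1 := hY y ((le_max_left _ _).trans hy)
  have hy2 : 2 ≤ y := (le_max_right _ _).trans hy
  rw [Real.norm_of_nonneg (Real.log_nonneg (by linarith)), ← Real.sqrt_eq_rpow,
    Real.norm_of_nonneg (Real.sqrt_nonneg _)] at hy1
  have h3 : 0 < Real.sqrt 1000 := by positivity
  have h4 : Real.sqrt (1000 * y) = Real.sqrt 1000 * Real.sqrt y :=
    Real.sqrt_mul (by norm_num) y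
  have h5 : Real.sqrt y * Real.sqrt y = y := Real.mul_self_sqrt (by linarith)
  calc 2 * Real.sqrt (1000 * y) * Real.log y
      ≤ 2 * Real.sqrt (1000 * y) * (1 / (4 * Real.sqrt 1000) * Real.sqrt y) := by gcongr
    _ = (Real.sqrt y * Real.sqrt y) / 2 := by
        rw [h4]
        field_simp
        ring
    _ ≤ y - 1 := by rw [h5]; linarith

private theorem polfac : ∃ J0 : ℕ, ∀ J ≥ J0, ∀ n : ℕ, J ^ 4 ≤ 1000 * n →
    ((n : ℝ) + 1) ^ (2 * J ^ 2) ≤ Real.exp n := by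
  obtain ⟨Y, hY2, hY⟩ := evlog
  refine ⟨⌈1000 * Y⌉₊ + 1, fun J hJ n hn => ?_⟩
  have h1 : 1000 * Y ≤ J := by
    have h2 : (⌈1000 * Y⌉₊ : ℝ) ≤ J := by exact_mod_cast (Nat.le_of_succ_le hJ)
    exact (Nat.le_ceil _).trans h2
  have hJ1 : (1 : ℝ) ≤ J := by linarith
  have h2 : (J : ℝ) ^ 4 ≤ 1000 * n := by exact_mod_cast hn
  have h3 : (J : ℝ) ≤ (J : ℝ) ^ 4 := by
    have := pow_le_pow_right₀ hJ1 (show 1 ≤ 4 by norm_num)
    simpa using this
  have h4 : Y ≤ n := by linarith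
  have h5 := hY ((n : ℝ) + 1) (by linarith)
  have h6 : (J : ℝ) ^ 2 ≤ Real.sqrt (1000 * ((n : ℝ) + 1)) := by
    apply Real.le_sqrt_of_sq_le
    have h7 : ((J : ℝ) ^ 2) ^ 2 = (J : ℝ) ^ 4 := by ring
    rw [h7]
    linarith
  have hn0 : (0 : ℝ) < (n : ℝ) + 1 := by positivity
  have h7 : 0 ≤ Real.log ((n : ℝ) + 1) := Real.log_nonneg (by linarith)
  rw [← Real.rpow_natCast, Real.rpow_def_of_pos hn0, Real.exp_le_exp]
  push_cast
  calc Real.log ((n : ℝ) + 1) * (2 * (J : ℝ) ^ 2)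
      = 2 * (J : ℝ) ^ 2 * Real.log ((n : ℝ) + 1) := by ring
    _ ≤ 2 * Real.sqrt (1000 * ((n : ℝ) + 1)) * Real.log ((n : ℝ) + 1) := by gcongr
    _ ≤ n := by linarith

theorem pf_TAIL : T_TAIL := by
  intro ρ ε hρ hε
  obtain ⟨J0, hJ0⟩ := polfac
  set K : ℝ := 2000 * Real.exp 1 ^ 2 * ρ ^ 2 with hK
  have hK0 : 0 < K := by positivity
  refine ⟨max J0 (⌈K⌉₊ + ⌈Real.exp (Real.log K / ε)⌉₊ + 1), fun J hJ => ?_⟩
  have hJJ0 : J0 ≤ J := (le_max_left _ _).trans hJ
  have hJ2 : ⌈K⌉₊ + ⌈Real.exp (Real.log K / ε)⌉₊ + 1 ≤ J := (le_max_right _ _).trans hJ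
  have hJK : K ≤ J := by
    have h2 : (⌈K⌉₊ : ℝ) ≤ J := by exact_mod_cast (by omega : ⌈K⌉₊ ≤ J)
    exact (Nat.le_ceil _).trans h2
  have hJE : Real.exp (Real.log K / ε) ≤ J := by
    have h2 : (⌈Real.exp (Real.log K / ε)⌉₊ : ℝ) ≤ J := by
      exact_mod_cast (by omega : ⌈Real.exp (Real.log K / ε)⌉₊ ≤ J)
    exact (Nat.le_ceil _).trans h2
  have hJ1 : 1 ≤ J := by omega
  have hJ1' : (1 : ℝ) ≤ J := by exact_mod_cast hJ1
  have hJ0' : (0 : ℝ) < J := by linarith
  have hlogJ : Real.log K ≤ ε * Real.log J := by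
    have h1 : Real.log K / ε ≤ Real.log J := by
      rw [Real.le_log_iff_exp_le hJ0']
      exact hJE
    rw [div_le_iff₀ hε] at h1
    linarith
  set x : ℝ := Real.exp 1 * (ρ * J) ^ 2 with hx
  have hx0 : 0 < x := by positivity
  -- the main estimate
  have hmain : ∀ k : ℕ, J ^ 4 ≤ 1000 * k → ∀ n, 0 ≤ gt 0 ρ J (n + k) ∧
      gt 0 ρ J (n + k) ≤ x ^ k / (k.factorial : ℝ) * (1 / 2) ^ n := by
    intro k hk n
    have hk0 : 0 < k := by
      rcases Nat.eq_zero_or_pos k with h | h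
      · rw [h, mul_zero] at hk
        have := Nat.one_le_pow 4 J hJ1
        omega
      · exact h
    have hkR : (0 : ℝ) < k := by exact_mod_cast hk0
    have hk' : (J : ℝ) ^ 4 ≤ 1000 * k := by exact_mod_cast hk
    constructor
    · unfold gt
      positivity
    have h1 := hJ0 J hJJ0 (n + k) (by omega)
    have h2 : gt 0 ρ J (n + k) ≤ x ^ (n + k) / ((n + k).factorial : ℝ) := by
      unfold gt
      rw [zero_mul, Real.exp_zero, one_mul, pow_mul (ρ * J), hx, mul_pow (Real.exp 1)]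
      have h3 : Real.exp ((n + k : ℕ) : ℝ) = Real.exp 1 ^ (n + k) := by
        rw [← Real.exp_nat_mul, mul_one]
      rw [h3] at h1
      gcongr
    refine h2.trans ?_
    have h4 : ((k.factorial : ℝ) * (k : ℝ) ^ n) ≤ ((n + k).factorial : ℝ) := by
      have h5 := Nat.factorial_mul_pow_le_factorial (m := k) (n := n)
      have h6 : k.factorial * k ^ n ≤ (n + k).factorial := by
        rw [add_comm n k]
        refine le_trans ?_ h5
        exact Nat.mul_le_mul_left _ (Nat.pow_le_pow_left (Nat.le_succ k) n)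
      exact_mod_cast h6
    have hxk : x / k ≤ 1 / 2 := by
      rw [div_le_div_iff₀ hkR (by norm_num)]
      have h5 : 2000 * x ≤ (J : ℝ) ^ 4 := by
        have h6 : 2000 * x = 2000 * Real.exp 1 * ρ ^ 2 * (J : ℝ) ^ 2 := by
          rw [hx]
          ring
        have h7 : 2000 * Real.exp 1 * ρ ^ 2 ≤ (J : ℝ) ^ 2 := by
          have h8 : 2000 * Real.exp 1 * ρ ^ 2 ≤ K := by
            rw [hK]
            have h9 : (1 : ℝ) ≤ Real.exp 1 := Real.one_le_exp (by norm_num)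
            have h10 : Real.exp 1 ≤ Real.exp 1 ^ 2 := by nlinarith
            gcongr
          have h9 : (J : ℝ) ≤ (J : ℝ) ^ 2 := by nlinarith
          linarith
        calc 2000 * x = 2000 * Real.exp 1 * ρ ^ 2 * (J : ℝ) ^ 2 := h6
          _ ≤ (J : ℝ) ^ 2 * (J : ℝ) ^ 2 := by gcongr
          _ = (J : ℝ) ^ 4 := by ring
      linarith
    calc x ^ (n + k) / ((n + k).factorial : ℝ)
        ≤ x ^ (n + k) / ((k.factorial : ℝ) * (k : ℝ) ^ n) := by gcongr
      _ = x ^ k / (k.factorial : ℝ) * (x / k) ^ n := by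
          rw [pow_add, div_pow]
          field_simp
      _ ≤ x ^ k / (k.factorial : ℝ) * (1 / 2) ^ n := by gcongr
  have hsum : ∀ k : ℕ, J ^ 4 ≤ 1000 * k → Summable fun n => gt 0 ρ J (n + k) := by
    intro k hk
    refine Summable.of_nonneg_of_le (fun n => (hmain k hk n).1) (fun n => (hmain k hk n).2) ?_
    exact (summable_geometric_two).mul_left _
  refine ⟨?_, fun k hk _ => ?_⟩
  · exact (summable_nat_add_iff (J ^ 4)).1 (hsum (J ^ 4) (by omega))
  have h1 : ∑' n, gt 0 ρ J (n + k) ≤ x ^ k / (k.factorial : ℝ) * 2 := by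
    refine ((hsum k hk).tsum_le_tsum (fun n => (hmain k hk n).2)
      ((summable_geometric_two).mul_left _)).trans ?_
    rw [tsum_mul_left, tsum_geometric_two]
  refine h1.trans ?_
  have hk0 : 0 < k := by
    rcases Nat.eq_zero_or_pos k with h | h
    · rw [h, mul_zero] at hk
      have := Nat.one_le_pow 4 J hJ1
      omega
    · exact h
  have hkR : (0 : ℝ) < k := by exact_mod_cast hk0
  have hk' : (J : ℝ) ^ 4 ≤ 1000 * k := by exact_mod_cast hk
  have h2 : (k : ℝ) ^ k / (k.factorial : ℝ) ≤ Real.exp 1 ^ k := by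
    have := Real.pow_div_factorial_le_exp (k : ℝ) (by positivity) k
    rwa [← Real.exp_nat_mul, mul_one]
  have h3 : x ^ k / (k.factorial : ℝ) * 2 ≤ (2 * (Real.exp 1 * x / k)) ^ k := by
    have h4 : x ^ k / (k.factorial : ℝ) = (x / k) ^ k * ((k : ℝ) ^ k / (k.factorial : ℝ)) := by
      rw [div_pow]
      field_simp
    rw [h4, mul_pow, mul_comm _ (2 : ℝ)]
    have h5 : (2 : ℝ) ≤ 2 ^ k := by
      have := pow_le_pow_right₀ (show (1 : ℝ) ≤ 2 by norm_num) (show 1 ≤ k from hk0)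
      simpa using this
    have h6 : (x / k) ^ k * ((k : ℝ) ^ k / (k.factorial : ℝ)) ≤ (Real.exp 1 * x / k) ^ k := by
      calc (x / k) ^ k * ((k : ℝ) ^ k / (k.factorial : ℝ)) ≤ (x / k) ^ k * Real.exp 1 ^ k := by
            gcongr
        _ = (Real.exp 1 * x / k) ^ k := by
            rw [← mul_pow]
            congr 1
            ring
    gcongr
  refine h3.trans ?_
  have h4 : 2 * (Real.exp 1 * x / k) ≤ K / (J : ℝ) ^ 2 := by
    rw [hK, hx, mul_div_assoc', div_le_div_iff₀ hkR (by positivity)]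
    have : 2 * (Real.exp 1 * (Real.exp 1 * (ρ * J) ^ 2)) * (J : ℝ) ^ 2 =
      2 * Real.exp 1 ^ 2 * ρ ^ 2 * (J : ℝ) ^ 4 := by ring
    rw [this]
    calc 2 * Real.exp 1 ^ 2 * ρ ^ 2 * (J : ℝ) ^ 4
        ≤ 2 * Real.exp 1 ^ 2 * ρ ^ 2 * (1000 * k) := by gcongr
      _ = 2000 * Real.exp 1 ^ 2 * ρ ^ 2 * k := by ring
  have h5 : K / (J : ℝ) ^ 2 ≤ Real.exp (-((2 - ε) * Real.log J)) := by
    have h6 : K / (J : ℝ) ^ 2 = Real.exp (Real.log K - 2 * Real.log J) := by
      rw [Real.exp_sub, Real.exp_log hK0, two_mul, Real.exp_add, Real.exp_log hJ0', pow_two]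
    rw [h6, Real.exp_le_exp]
    linarith
  calc (2 * (Real.exp 1 * x / k)) ^ k ≤ (Real.exp (-((2 - ε) * Real.log J))) ^ k := by
        gcongr
        exact h4.trans h5
    _ = Real.exp (-((2 - ε) * k * Real.log J)) := by
        rw [← Real.exp_nat_mul]
        congr 1
        ring

end Pool.Agent.H33.EE.TAIL
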