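import Pool.Agent.H30.EE.TargetsU
import Pool.Agent.H27.LV.Curve

/-!
# Row UJT of the board ee_modules: jets
-/

set_option autoImplicit false

namespace Pool.Agent.H33.EE

open SC Pool.Agent.H27.LV Pool.Agent.H30.EE

section

variable {k E : Type} [Field k] [IsAlgClosed k] [CharZero k] [Field E] [Algebra k E]
  [Algebra.EssFiniteType k E]

/-- a nonconstant function has a pole -/
theorem ujt_pole (htr : Algebra.trdeg k E = 1) {z : E} (hz : z ∉ Set.range (algebraMap k E)) :
    ∃ v : DV k E, v.ord z < 0 := by
  have hzt : Transcendental k z := by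
    intro halg
    apply hz
    have h1 : (minpoly k z).degree = 1 := IsAlgClosed.degree_eq_one_of_irreducible k
      (minpoly.irreducible halg.isIntegral)
    obtain ⟨c, hc⟩ := minpoly.mem_range_of_degree_eq_one k z h1
    exact ⟨c, hc⟩
  have hfd := Pool.Agent.H36.SC.fin_of_transc htr hzt
  obtain ⟨-, -, h⟩ := Pool.Agent.H76.KN.v5 k E z hzt hfd
  by_contra hcon
  push Not at hcon
  have h0 : ∑ᶠ v : DV k E, (v.deg : ℤ) * max 0 (- v.ord z) = 0 := by
    apply finsum_eq_zero_of_forall_eq_zero
    intro v
    rw [max_eq_left (by have := hcon v; omega), mul_zero]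
  rw [h0] at h
  have h1 : 0 < Module.finrank (IntermediateField.adjoin k {z}) E := Module.finrank_pos
  omega

/-- one step of the filtration -/
theorem ujt_step (htr : Algebra.trdeg k E = 1) (v : DV k E) (t : ℤ) (S : Submodule k E)
    [FiniteDimensional k S] (hS : ∀ f ∈ S, ge v t f) :
    ∃ S' : Submodule k E, S' ≤ S ∧ Module.finrank k S ≤ Module.finrank k S' + 1 ∧
      ∀ f ∈ S', ge v (t + 1) f := by
  by_cases hall : ∀ f ∈ S, ge v (t + 1) f
  · exact ⟨S, le_rfl, Nat.le_succ _, hall⟩
  push Not at hall
  obtain ⟨g, hgS, hg⟩ := hall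
  have hg0 : g ≠ 0 := fun h => hg (Or.inl h)
  have hgt : v.ord g = t := by
    have h1 := (hS g hgS).resolve_left hg0
    by_contra h2
    exact hg (Or.inr (by omega))
  let S' : Submodule k E :=
    { carrier := {f | f ∈ S ∧ ge v (t + 1) f}
      add_mem' := fun ha hb => ⟨S.add_mem ha.1 hb.1, ha.2.add hb.2⟩
      zero_mem' := ⟨S.zero_mem, ge_zero v _⟩
      smul_mem' := fun c x hx => ⟨S.smul_mem c hx.1, by
        have h1 := (ge_const v c).mul hx.2
        rw [zero_add] at h1
        rwa [Algebra.smul_def]⟩ }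
  refine ⟨S', fun f hf => hf.1, ?_, fun f hf => hf.2⟩
  have hle : S ≤ S' ⊔ Submodule.span k {g} := by
    intro f hf
    have h1 : 0 ≤ v.ord (f / g) := by
      by_cases hf0 : f = 0
      · rw [hf0, zero_div, v.ord_zero]
      · rw [v.ord_div hf0 hg0, hgt]
        have := (hS f hf).resolve_left hf0
        omega
    obtain ⟨c, hc⟩ := (rat k E htr v).2 (f / g) h1
    have h2 : f - c • g ∈ S' := by
      refine ⟨S.sub_mem hf (S.smul_mem c hgS), ?_⟩
      have h3 := (ge_of_ord v (x := g)).mul hc
      have h4 : g * (f / g - algebraMap k E c) = f - c • g := by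
        rw [Algebra.smul_def]
        field_simp
      rwa [h4, hgt] at h3
    have h5 : f = (f - c • g) + c • g := by ring
    rw [h5]
    exact Submodule.add_mem_sup h2 (Submodule.smul_mem _ _ (Submodule.mem_span_singleton_self g))
  have hS'S : S' ≤ S := fun f hf => hf.1
  have : FiniteDimensional k S' := Submodule.finiteDimensional_of_le hS'S
  calc Module.finrank k S ≤ Module.finrank k (S' ⊔ Submodule.span k {g} : Submodule k E) :=
        Submodule.finrank_mono hle
    _ ≤ Module.finrank k S' + Module.finrank k (Submodule.span k {g}) :=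
        Submodule.finrank_add_le_finrank_add_finrank _ _
    _ = Module.finrank k S' + 1 := by rw [finrank_span_singleton hg0]

/-- several steps -/
theorem ujt_steps (htr : Algebra.trdeg k E = 1) (v : DV k E) (t : ℤ) (S : Submodule k E)
    [FiniteDimensional k S] (hS : ∀ f ∈ S, ge v t f) (n : ℕ) :
    ∃ S' : Submodule k E, S' ≤ S ∧ Module.finrank k S ≤ Module.finrank k S' + n ∧
      ∀ f ∈ S', ge v (t + n) f := by
  induction n with
  | zero => exact ⟨S, le_rfl, le_rfl, by simpa using hS⟩
  | succ n ih =>
    obtain ⟨S₁, h1, h2, h3⟩ := ih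
    have : FiniteDimensional k S₁ := Submodule.finiteDimensional_of_le h1
    obtain ⟨S₂, h4, h5, h6⟩ := ujt_step htr v (t + n) S₁ h3
    refine ⟨S₂, h4.trans h1, by omega, ?_⟩
    intro f hf
    have h7 := h6 f hf
    push_cast
    rwa [← add_assoc]

omit [IsAlgClosed k] [CharZero k] [Algebra.EssFiniteType k E] in
theorem ujt_ge_of {ι : Type} [Fintype ι] (v : DV k E) (w : ι → E) :
    ∀ f ∈ Submodule.span k (Set.range w), ge v (-(poleOrder v w : ℤ)) f := by
  intro f hf
  induction hf using Submodule.span_induction with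
  | mem x hx =>
    obtain ⟨j, rfl⟩ := hx
    right
    have h1 : (-(v.ord (w j))).toNat ≤ poleOrder v w :=
      Finset.le_sup (f := fun i => (-(v.ord (w i))).toNat) (Finset.mem_univ j)
    omega
  | zero => exact ge_zero v _
  | add x y _ _ hx hy => exact hx.add hy
  | smul c x _ hx =>
    have h1 := (ge_const v c).mul hx
    rw [zero_add] at h1
    rwa [Algebra.smul_def]

theorem ujt_cast (htr : Algebra.trdeg k E = 1) {ι : Type} [Fintype ι] (z : ι → E) :
    ((deg k z : ℕ) : ℤ) = ∑ᶠ v : DV k E, (poleOrder v z : ℤ) := by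
  unfold deg
  have h := (Nat.castAddMonoidHom ℤ).map_finsum (f := fun v : DV k E => poleOrder v z)
    (pfi k E htr ι z)
  exact h

end

theorem pf_UJT : T_UJT := by
  intro k E _ _ _ _ _ _ htr m w hw
  have hfr : Module.finrank k (Submodule.span k (Set.range w)) = m + 1 := by
    rw [finrank_span_eq_card hw, Fintype.card_fin]
  have hfd : FiniteDimensional k (Submodule.span k (Set.range w)) :=
    FiniteDimensional.span_of_finite k (Set.finite_range w)
  constructor
  · rcases Nat.eq_zero_or_pos m with hm | hm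
    · omega
    -- a place
    obtain ⟨v0, -⟩ : ∃ v : DV k E, True := by
      by_contra hcon
      have hne : ¬ Nonempty (DV k E) := fun ⟨v⟩ => hcon ⟨v, trivial⟩
      have h01 : (⟨0, by omega⟩ : Fin (m + 1)) ≠ ⟨1, by omega⟩ := by
        intro h
        have := congrArg Fin.val h
        simp at this
      have hw0 : w ⟨0, by omega⟩ ≠ 0 := hw.ne_zero _
      have hz : w ⟨1, by omega⟩ / w ⟨0, by omega⟩ ∉ Set.range (algebraMap k E) := by
        rintro ⟨c, hc⟩
        have h1 : w ⟨1, by omega⟩ = c • w ⟨0, by omega⟩ := by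
          rw [Algebra.smul_def, hc]
          field_simp
        have h2 := hw.notMem_span_image (s := {(⟨0, by omega⟩ : Fin (m + 1))}) (x := ⟨1, by omega⟩)
          (fun h => h01 (Set.mem_singleton_iff.1 h).symm)
        rw [Set.image_singleton, h1] at h2
        exact h2 (Submodule.smul_mem _ _ (Submodule.mem_span_singleton_self _))
      obtain ⟨v, -⟩ := ujt_pole htr hz
      exact hne ⟨v⟩
    obtain ⟨S', h1, h2, h3⟩ := ujt_steps htr v0 _ _ (ujt_ge_of v0 w) m
    have hfd' : FiniteDimensional k S' := Submodule.finiteDimensional_of_le h1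
    have hpos : 0 < Module.finrank k S' := by omega
    have hbot : S' ≠ ⊥ := by
      rintro rfl
      simp at hpos
    obtain ⟨f, hf, hf0⟩ := Submodule.exists_mem_ne_zero_of_ne_bot hbot
    have h4 : ∀ v : DV k E, 0 ≤ v.ord f + poleOrder v w := by
      intro v
      have := (ujt_ge_of v w f (h1 hf)).resolve_left hf0
      omega
    have h5 : (m : ℤ) ≤ v0.ord f + poleOrder v0 w := by
      have := (h3 f hf).resolve_left hf0
      omega
    obtain ⟨h6, h7⟩ := pfm k E htr f
    have h8 : (Function.support fun v : DV k E => (poleOrder v w : ℤ)).Finite := by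
      refine (pfi k E htr _ w).subset fun v hv => ?_
      simpa using hv
    have h9 : ∑ᶠ v : DV k E, (v.ord f + poleOrder v w) = deg k w := by
      rw [finsum_add_distrib h6 h8, h7, zero_add, ujt_cast htr]
    have h10 := single_le_finsum v0 ((h6.union h8).subset (Function.support_add _ _)) h4
    rw [h9] at h10
    have h11 : (m : ℤ) ≤ deg k w := h5.trans h10
    exact_mod_cast h11
  · intro v v' _ hv hv' i hi
    obtain ⟨S₁, h1, h2, h3⟩ := ujt_steps htr v _ _ (ujt_ge_of v w) i
    have hfd1 : FiniteDimensional k S₁ := Submodule.finiteDimensional_of_le h1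
    obtain ⟨S₂, h4, h5, h6⟩ := ujt_steps htr v' _ S₁
      (fun f hf => ujt_ge_of v' w f (h1 hf)) (m - i)
    have hfd' : FiniteDimensional k S₂ := Submodule.finiteDimensional_of_le h4
    have hpos : 0 < Module.finrank k S₂ := by omega
    have hbot : S₂ ≠ ⊥ := by
      rintro rfl
      simp at hpos
    obtain ⟨f, hf, hf0⟩ := Submodule.exists_mem_ne_zero_of_ne_bot hbot
    refine ⟨f, h1 (h4 hf), hf0, ?_, ?_⟩
    · have := (h3 f (h4 hf)).resolve_left hf0
      rw [hv] at this
      simpa using this
    · have := (h6 f hf).resolve_left hf0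
      rw [hv'] at this
      simpa using this

end Pool.Agent.H33.EE
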