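import Pool.Agent.H30.EE.TargetsF
import Pool.Agent.H66.VG.VE
import Pool.Agent.H92.VG.VD
import Pool.Agent.H17.EE.XR
import Pool.Agent.H33.EE.UJT

/-!
# Row FIE of the board ee_modules: the final statement
-/

set_option autoImplicit false

namespace Pool.Agent.H33.EE

open MvPolynomial SC Pool.Agent.H27.LV Pool.Agent.H17.VG Pool.Agent.H30.EE

/-- the smallest order in normalised coordinates -/
theorem fie_mo {k K : Type} [Field k] [Field K] [Algebra k K] {ι : Type} [Fintype ι]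
    (v : DV k K) (x : ι → K) (p : ι) (hp : x p = 1) : mo v x = -(poleOrder v x : ℤ) := by
  classical
  have hfin : {a : ℤ | ∃ i, x i ≠ 0 ∧ v.ord (x i) = a}.Finite :=
    (Set.finite_range fun i => v.ord (x i)).subset (by
      rintro a ⟨i, -, rfl⟩
      exact ⟨i, rfl⟩)
  have hne : {a : ℤ | ∃ i, x i ≠ 0 ∧ v.ord (x i) = a}.Nonempty :=
    ⟨v.ord (x p), p, by rw [hp]; exact one_ne_zero, rfl⟩
  have hmem := Int.csInf_mem hne hfin.bddBelow
  have hle : ∀ i, x i ≠ 0 → mo v x ≤ v.ord (x i) := fun i hi =>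
    csInf_le hfin.bddBelow ⟨i, hi, rfl⟩
  have hmo : mo v x = sInf {a : ℤ | ∃ i, x i ≠ 0 ∧ v.ord (x i) = a} := rfl
  rw [← hmo] at hmem
  obtain ⟨i0, hi0, hi0m⟩ := hmem
  have h0 : mo v x ≤ 0 := by
    have := hle p (by rw [hp]; exact one_ne_zero)
    rwa [hp, v.ord_one] at this
  have h1 : poleOrder v x ≤ (-(mo v x)).toNat := by
    unfold poleOrder
    refine Finset.sup_le fun i _ => ?_
    by_cases hi : x i = 0
    · rw [hi, v.ord_zero]
      simp
    · have := hle i hi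
      omega
  have h2 : (-(v.ord (x i0))).toNat ≤ poleOrder v x :=
    Finset.le_sup (f := fun i => (-(v.ord (x i))).toNat) (Finset.mem_univ i0)
  rw [hi0m] at h2
  omega

/-- a nonconstant point has positive degree -/
theorem fie_pos {k K : Type} [Field k] [IsAlgClosed k] [CharZero k] [Field K] [Algebra k K]
    [Algebra.EssFiniteType k K] (htr : Algebra.trdeg k K = 1) {ι : Type} [Fintype ι] (x : ι → K)
    (hx : ∃ j, x j ∉ Set.range (algebraMap k K)) : 0 < deg k x := by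
  obtain ⟨j, hj⟩ := hx
  obtain ⟨v, hv⟩ := ujt_pole htr hj
  have h1 : (-(v.ord (x j))).toNat ≤ poleOrder v x :=
    Finset.le_sup (f := fun i => (-(v.ord (x i))).toNat) (Finset.mem_univ j)
  have h2 : poleOrder v x ≤ deg k x :=
    single_le_finsum v (pfi k K htr ι x) (fun _ => Nat.zero_le _)
  omega

theorem pf_FIE (hHG : T_HG) (hMNE : T_MNE) : T_FIE := by
  intro ε R hε hε1 hR hR1
  obtain ⟨n0, hn0⟩ := hMNE ε R hε hε1 hR hR1
  refine ⟨max n0 ⌈2 / ε⌉₊, ?_⟩
  intro n e hn hne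
  obtain ⟨C, hC⟩ := hn0 n e ((le_max_left _ _).trans hn) hne
  have hne2 : n + 2 ≤ e + 1 := by
    have h1 : (2 / ε : ℚ) ≤ n := (Nat.le_ceil _).trans (by
      exact_mod_cast (le_max_right n0 ⌈2 / ε⌉₊).trans hn)
    rw [div_le_iff₀ hε] at h1
    have h2 : (n : ℚ) + 2 ≤ e + 1 := by linarith
    exact_mod_cast h2
  refine ⟨(e + 1) * C, ?_⟩
  intro k _ _ _ c hc
  refine ⟨?_, ?_⟩
  · intro K _ _ _ htr S y hy hreg hnc hexc D hD
    obtain ⟨x, p, hp, hF, hyx⟩ := Pool.Agent.H66.VG.ve k K n (e + 1) c y (by omega) hy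
    obtain ⟨h1, h2, h3⟩ := Pool.Agent.H92.VG.pf_VD k K htr n (e + 1) c y x p (by omega) hp hF hyx
    have hh : hgt k x = deg k x := (hHG k K htr _ x).2.2.2.2.2.1 p hp
    have hpos : 0 < hgt k x := by
      rw [hh]
      exact_mod_cast fie_pos htr x (h3 hnc)
    have h4 := hC k c hc K htr D hD x hpos hF
      (fun r z hr hrR hz hzx hT => hexc ⟨r, z, p, hr, hrR, by rw [hzx]; exact hp, hz, hT,
        by rw [hzx]; exact hF, by rw [hzx]; exact hyx⟩) S
      (fun v hv => by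
        rw [h1 v fun M => hreg v hv M, fie_mo v x p hp]
        push_cast
        ring)
    rw [hh] at h4
    rw [h2]
    push_cast
    calc ((e : ℤ) + 1) * deg k x ≤ ((e : ℤ) + 1) * (C * (canDeg D + S.card)) := by
          refine mul_le_mul_of_nonneg_left h4 (by positivity)
      _ = ((e : ℤ) + 1) * C * (canDeg D + S.card) := by ring
  · obtain ⟨Φ, m, hΦ0, hΦ, h⟩ := Pool.Agent.H17.EE.pf_XR k n (e + 1) R c hne2 hc
    exact ⟨Φ, m, hΦ0, hΦ, fun K _ _ r z p h1 h2 h3 h4 h5 => h K r z p h1 h2 h3 h4 h5⟩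

end Pool.Agent.H33.EE
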