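import Pool.Agent.H30.EE.TargetsI
import Pool.Agent.H97.VG.EV
import Pool.Agent.H52.VG.RS

/-!
# Row ISU of the board ee_modules: the operators move the flag in all directions
-/

set_option autoImplicit false

namespace Pool.Agent.H33.EE

open MvPolynomial SC Pool.Agent.H27.LV Pool.Agent.H17.VG Pool.Agent.H30.EE

section

variable {R K : Type} [Field R] [Field K] [Algebra R K] {n r : ℕ}

/-- a vector of `L` in the chart -/
theorem isu_repr {L : Submodule K (Fin (n + 1) → K)} {J : Fin (r + 1) → Fin (n + 1)}
    {z : Fin (r + 1) → Fin (n + 1) → K} (h : Cht L J z) {x : Fin (n + 1) → K} (hx : x ∈ L) :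
    x = ∑ i, x (J i) • z i := by
  rw [← h.span] at hx
  rw [Submodule.mem_span_range_iff_exists_fun] at hx
  obtain ⟨c, rfl⟩ := hx
  refine Finset.sum_congr rfl fun i _ => ?_
  congr 1
  rw [Finset.sum_apply]
  have h1 : ∀ a, (c a • z a) (J i) = if a = i then c a else 0 := by
    intro a
    rw [Pi.smul_apply, h.id, smul_eq_mul]
    split_ifs <;> simp
  rw [Finset.sum_congr rfl fun a _ => h1 a]
  simp

theorem isu_mulV (B : Matrix (Fin (n + 1)) (Fin (n + 1)) K) (c : K) (u : Fin (n + 1) → K) :
    opV (((0 : Derivation R K K), -B - c • (1 : Matrix (Fin (n + 1)) (Fin (n + 1)) K)) : Op R K n)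
      u = fun p => ∑ q, B p q * u q + c * u p := by
  funext p
  unfold opV
  have h1 : ∑ j, ((-B - c • (1 : Matrix (Fin (n + 1)) (Fin (n + 1)) K)) p j) * u j =
      -(∑ q, B p q * u q) - c * u p := by
    have h2 : ∀ j, ((-B - c • (1 : Matrix (Fin (n + 1)) (Fin (n + 1)) K)) p j) * u j =
        -(B p j * u j) - (if p = j then c * u j else 0) := by
      intro j
      rw [Matrix.sub_apply, Matrix.neg_apply, Matrix.smul_apply, Matrix.one_apply, smul_eq_mul]
      split_ifs <;> ring
    rw [Finset.sum_congr rfl fun j _ => h2 j, Finset.sum_sub_distrib, Finset.sum_neg_distrib]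
    simp
  simp only [Derivation.coe_zero, Pi.zero_apply]
  rw [h1]
  ring

end

theorem pf_ISU : T_ISU := by
  classical
  intro R K _ _ _ _ n e r F D x L hS hI hF J z hz hx
  have hrep := isu_repr hz hx
  have hx0 : x ≠ 0 := by
    have h := hI.ne_zero 0
    simpa using h
  obtain ⟨i0, hi0⟩ : ∃ i, x (J i) ≠ 0 := by
    by_contra hcon
    push Not at hcon
    apply hx0
    rw [hrep]
    exact Finset.sum_eq_zero fun i _ => by rw [hcon i, zero_smul]
  constructor
  · intro w
    -- the images of the vectors of the chart
    set b : Fin (r + 1) → Fin (r + 1) → K := fun i i' =>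
      if i = i0 then w (Sum.inl i') / x (J i0) else 0 with hb
    set cc : Fin (r + 1) → Fin (n + 1) → K := fun i p =>
      if h : ∀ i, J i ≠ p then w (Sum.inr (i, ⟨p, h⟩)) else 0 with hcc
    set a : Fin (r + 1) → Fin (n + 1) → K := fun i p => ∑ i', b i i' * z i' p + cc i p with ha
    have haJ : ∀ i i', a i (J i') = b i i' := by
      intro i i'
      have h1 : cc i (J i') = 0 := by
        simp only [hcc]
        rw [dif_neg]
        intro h
        exact h i' rfl
      simp only [ha]
      rw [h1, add_zero]
      simp [hz.id]
    set B : Matrix (Fin (n + 1)) (Fin (n + 1)) K :=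
      Matrix.of fun p q => ∑ i, if q = J i then a i p else 0 with hB
    have hBu : ∀ (u : Fin (n + 1) → K) p, ∑ q, B p q * u q = ∑ i, a i p * u (J i) := by
      intro u p
      simp only [hB, Matrix.of_apply, Finset.sum_mul]
      rw [Finset.sum_comm]
      refine Finset.sum_congr rfl fun i _ => ?_
      simp
    have hBz : ∀ i p, ∑ q, B p q * z i q = a i p := by
      intro i p
      rw [hBu]
      simp [hz.id]
    -- the scalar
    set s : K := eval x (dir (fun p => ∑ q, B p q * x q) F) with hs
    have hE : eval x (dir x F) = ((e + 1 : ℕ) : K) * eval x F := by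
      have h := Pool.Agent.H52.VG.rs K n (e + 1) F F x x x x x 0 0
      exact h.2.2.2.2.2.2.2.2.2.1 hS.homog
    have hE0 : ((e + 1 : ℕ) : K) * eval x F ≠ 0 :=
      mul_ne_zero (by exact_mod_cast Nat.succ_ne_zero e) hF
    set c : K := -s / (((e + 1 : ℕ) : K) * eval x F) with hc
    set τ : Op R K n := ((0 : Derivation R K K),
      -B - c • (1 : Matrix (Fin (n + 1)) (Fin (n + 1)) K)) with hτ
    have hV : ∀ u : Fin (n + 1) → K, opV τ u = fun p => ∑ q, B p q * u q + c * u p := fun u =>
      isu_mulV B c u
    refine ⟨τ, c, ?_, ?_⟩
    · refine Submodule.mem_inf.2 ⟨?_, ?_⟩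
      · rw [mem_homogeneousSubmodule]
        exact Pool.Agent.H97.VG.opF_homog τ F (e + 1) hS.homog
      · rw [LinearMap.mem_ker, AlgHom.toLinearMap_apply]
        have h1 := Pool.Agent.H97.VG.ev' τ F x
        have h2 : τ.1 (eval x F) = 0 := rfl
        have h3 : eval x (dir (opV τ x) F) = s + c * (((e + 1 : ℕ) : K) * eval x F) := by
          have h := Pool.Agent.H52.VG.rs K n (e + 1) F F (fun p => ∑ q, B p q * x q) x x x x 1 c
          have h4 := h.2.2.2.2.2.2.1
          have h5 : opV τ x = (1 : K) • (fun p => ∑ q, B p q * x q) + c • x := by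
            rw [hV, one_smul]
            rfl
          rw [h5, h4, map_add, map_mul, map_mul, eval_C, eval_C, one_mul, hE]
        rw [h2, h3] at h1
        have h6 : s + c * (((e + 1 : ℕ) : K) * eval x F) = 0 := by
          rw [hc]
          field_simp
          ring
        rw [h6, add_zero] at h1
        have h7 : aeval x (opF τ F) = eval x (opF τ F) := by
          rw [aeval_eq_eval]
        rw [h7]
        exact h1.symm
    · funext row
      rcases row with i' | ⟨i, j, hj⟩
      · simp only [colF, colX, Pi.add_apply, Pi.smul_apply, smul_eq_mul]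
        rw [hV]
        simp only [hBu]
        have h1 : ∑ i, a i (J i') * x (J i) = w (Sum.inl i') := by
          simp only [haJ, hb]
          rw [Finset.sum_eq_single_of_mem i0 (Finset.mem_univ _)
            (fun i _ hi => by rw [if_neg hi, zero_mul]), if_pos rfl]
          exact div_mul_cancel₀ _ hi0
        rw [h1]
      · simp only [colF, colX, Pi.add_apply, Pi.smul_apply, smul_eq_mul, mul_zero, add_zero]
        unfold fq
        rw [hV]
        simp only [hBz, haJ, hz.id]
        have h1 : cc i j = w (Sum.inr (i, ⟨j, hj⟩)) := by
          simp only [hcc]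
          rw [dif_pos hj]
        have h2 : ∑ i', (b i i' + c * if i = i' then 1 else 0) * z i' j =
            ∑ i', b i i' * z i' j + c * z i j := by
          simp only [add_mul, Finset.sum_add_distrib]
          simp
        rw [h2, ← h1]
        simp only [ha]
        ring
  · rw [LinearIndependent.pair_iff]
    intro s t hst
    have hD : ∀ u : Fin (n + 1) → K, opV ((D, 0) : Op R K n) u = fun p => D (u p) := by
      intro u
      funext p
      unfold opV
      simp
    have h1 : ∀ i, s * D (x (J i)) + t * x (J i) = 0 := by
      intro i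
      have h := congrFun hst (Sum.inl i)
      simp only [colF, colX, hD, Pi.add_apply, Pi.smul_apply, smul_eq_mul, Pi.zero_apply] at h
      exact h
    have hs0 : s = 0 := by
      by_contra hs
      have h2 : ∀ i p, D (z i p) = 0 := by
        intro i p
        by_cases hp : ∀ i, J i ≠ p
        · have h := congrFun hst (Sum.inr (i, ⟨p, hp⟩))
          simp only [colF, colX, hD, Pi.add_apply, Pi.smul_apply, smul_eq_mul, Pi.zero_apply,
            mul_zero, add_zero] at h
          have h3 := (mul_eq_zero.1 h).resolve_left hs
          unfold fq at h3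
          have h4 : ∀ i', D (z i (J i')) = 0 := by
            intro i'
            rw [hz.id]
            split_ifs
            · exact D.map_one_eq_zero
            · exact map_zero D
          simpa [h4] using h3
        · push Not at hp
          obtain ⟨i', rfl⟩ := hp
          rw [hz.id]
          split_ifs
          · exact D.map_one_eq_zero
          · exact map_zero D
      have h3 : ∀ p, s * D (x p) + t * x p = 0 := by
        intro p
        have h4 : x p = ∑ i, x (J i) * z i p := by
          have := congrFun hrep p
          rw [Finset.sum_apply] at this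
          simpa using this
        have h5 : D (x p) = ∑ i, D (x (J i)) * z i p := by
          rw [h4, map_sum]
          refine Finset.sum_congr rfl fun i _ => ?_
          rw [Derivation.leibniz, h2 i p, smul_zero, zero_add, smul_eq_mul, mul_comm]
        rw [h5]
        rw [show t * x p = t * ∑ i, x (J i) * z i p by rw [← h4], Finset.mul_sum, Finset.mul_sum,
          ← Finset.sum_add_distrib]
        refine Finset.sum_eq_zero fun i _ => ?_
        linear_combination (z i p) * h1 i
      have h6 := (LinearIndependent.pair_iff.1 hI) t s (by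
        funext p
        simp only [Pi.add_apply, Pi.smul_apply, smul_eq_mul, Pi.zero_apply]
        linear_combination h3 p)
      exact hs h6.2
    refine ⟨hs0, ?_⟩
    have h2 := h1 i0
    rw [hs0, zero_mul, zero_add] at h2
    exact (mul_eq_zero.1 h2).resolve_right hi0

end Pool.Agent.H33.EE
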